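import Mathlib
import Pool.Agent.H500R2.EO.Params
import Pool.Agent.H500R2.EO.Lower

/-!
# Exact orders of additive bases of `ℕ ^ d`
-/

open Finset
open scoped Pointwise

namespace Pool.Agent.Y875.EO

open Pool.Agent.Helper591.Kneser Pool.Agent.H500R2.EO

variable {d : ℕ}

/-- sums of exactly `j` elements of `A ⊆ ℕ ^ d` (repetitions allowed) -/
def nsumD (A : Set (Fin d → ℕ)) (j : ℕ) : Set (Fin d → ℕ) :=
  {n | ∃ v : Fin j → Fin d → ℕ, (∀ i, v i ∈ A) ∧ ∑ i, v i = n}

/-- `A ⊆ ℕ ^ d` is a basis of order `r`: all points with large coordinates are sums of exactly `j`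
elements of `A` for some `j ≤ r` -/
def IsBasisD (r : ℕ) (A : Set (Fin d → ℕ)) : Prop :=
  ∃ N : ℕ, ∀ n : Fin d → ℕ, (∀ i, N ≤ n i) → ∃ j ≤ r, n ∈ nsumD A j

/-- `A ⊆ ℕ ^ d` has exact order `k`: `k` is the least integer such that all points with large
coordinates are sums of exactly `k` elements of `A` -/
def HasExactOrderD (A : Set (Fin d → ℕ)) (k : ℕ) : Prop :=
  IsLeast {k : ℕ | ∃ N : ℕ, ∀ n : Fin d → ℕ, (∀ i, N ≤ n i) → n ∈ nsumD A k} k

/-- the exact orders of the bases of order `r` of `ℕ ^ d` -/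
def exactOrdersD (d r : ℕ) : Set ℕ :=
  {k | ∃ A : Set (Fin d → ℕ), IsBasisD r A ∧ HasExactOrderD A k}

/-- the analogue for `ℕ ^ d` of the function `h(r)` of Erdos and Graham -/
noncomputable def hD (d r : ℕ) : ℕ := sSup (exactOrdersD d r)

theorem nsumD_zero {A : Set (Fin d → ℕ)} {n : Fin d → ℕ} : n ∈ nsumD A 0 ↔ n = 0 := by
  constructor
  · rintro ⟨v, _, rfl⟩
    simp
  · rintro rfl
    exact ⟨fun i => i.elim0, fun i => i.elim0, by simp⟩

theorem nsumD_succ {A : Set (Fin d → ℕ)} {j : ℕ} {n : Fin d → ℕ} :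
    n ∈ nsumD A (j + 1) ↔ ∃ w ∈ nsumD A j, ∃ a ∈ A, w + a = n := by
  constructor
  · rintro ⟨v, hv, rfl⟩
    exact ⟨_, ⟨fun i => v i.castSucc, fun i => hv _, rfl⟩, v (Fin.last j), hv _,
      (Fin.sum_univ_castSucc v).symm⟩
  · rintro ⟨w, ⟨v, hv, rfl⟩, a, ha, rfl⟩
    refine ⟨Fin.snoc (α := fun _ => Fin d → ℕ) v a, ?_, ?_⟩
    · intro i
      refine Fin.lastCases ?_ (fun i => ?_) i
      · simpa using ha
      · simpa using hv i
    · rw [Fin.sum_univ_castSucc]
      simp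

theorem nsumD_add {A : Set (Fin d → ℕ)} {i j : ℕ} {u v : Fin d → ℕ} (hu : u ∈ nsumD A i)
    (hv : v ∈ nsumD A j) : u + v ∈ nsumD A (i + j) := by
  induction j generalizing v with
  | zero =>
    rw [nsumD_zero] at hv
    rw [hv]
    exact hu
  | succ j ih =>
    obtain ⟨w, hw, a, ha, rfl⟩ := nsumD_succ.1 hv
    rw [← add_assoc, ← add_assoc]
    exact nsumD_succ.2 ⟨_, ih hw, a, ha, rfl⟩

/-- the points of `A` with all coordinates below `M` -/
def box (A : Set (Fin d → ℕ)) (M : ℕ) : Set (Fin d → ℕ) := {x | x ∈ A ∧ ∀ i, x i < M}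

theorem nsumD_box {A : Set (Fin d → ℕ)} {j M : ℕ} {n : Fin d → ℕ} (hn : n ∈ nsumD A j)
    (hM : ∀ i, n i < M) : n ∈ nsumD (box A M) j := by
  obtain ⟨v, hv, rfl⟩ := hn
  refine ⟨v, fun l => ⟨hv l, fun i => lt_of_le_of_lt ?_ (hM i)⟩, rfl⟩
  rw [Finset.sum_apply]
  exact Finset.single_le_sum (f := fun l => v l i) (fun _ _ => Nat.zero_le _) (Finset.mem_univ l)

theorem nsumD_bound {A : Set (Fin d → ℕ)} {j M : ℕ} {n : Fin d → ℕ} (hn : n ∈ nsumD (box A M) j)
    (i : Fin d) : n i + j ≤ j * M := by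
  obtain ⟨v, hv, rfl⟩ := hn
  rw [Finset.sum_apply]
  calc (∑ l, v l i) + j = ∑ l : Fin j, (v l i + 1) := by
        rw [Finset.sum_add_distrib, Finset.sum_const, Finset.card_univ, Fintype.card_fin,
          smul_eq_mul, mul_one]
    _ ≤ ∑ _l : Fin j, M := Finset.sum_le_sum fun l _ => (hv l).2 i
    _ = j * M := by rw [Finset.sum_const, Finset.card_univ, Fintype.card_fin, smul_eq_mul]

theorem nsumD_of_box {A : Set (Fin d → ℕ)} {j M : ℕ} {n : Fin d → ℕ}
    (hn : n ∈ nsumD (box A M) j) : n ∈ nsumD A j := by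
  obtain ⟨v, hv, rfl⟩ := hn
  exact ⟨v, fun i => (hv i).1, rfl⟩

/-- reduction modulo `Q` -/
def red (Q : ℕ) (n : Fin d → ℕ) : Fin d → ZMod Q := fun i => (n i : ZMod Q)

theorem red_add (Q : ℕ) (m n : Fin d → ℕ) : red Q (m + n) = red Q m + red Q n := by
  ext i
  simp [red]

theorem red_zero (Q : ℕ) : red Q (0 : Fin d → ℕ) = 0 := by
  ext i
  simp [red]

open Classical in
/-- the differences of `a0` and the elements of `A` in the box of size `2 Q`, modulo `Q` -/
noncomputable def BB (A : Set (Fin d → ℕ)) (a0 : Fin d → ℕ) (Q : ℕ) [NeZero Q] :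
    Finset (Fin d → ZMod Q) :=
  Finset.univ.filter fun g => ∃ a ∈ box A (2 * Q), red Q a - red Q a0 = g

theorem mem_BB {A : Set (Fin d → ℕ)} {a0 : Fin d → ℕ} {Q : ℕ} [NeZero Q]
    {g : Fin d → ZMod Q} : g ∈ BB A a0 Q ↔ ∃ a ∈ box A (2 * Q), red Q a - red Q a0 = g := by
  classical
  unfold BB
  simp

theorem mem_smB {A : Set (Fin d → ℕ)} {a0 : Fin d → ℕ} {Q : ℕ} [NeZero Q] {j : ℕ}
    {x : Fin d → ZMod Q} :
    x ∈ sm j (BB A a0 Q) ↔ ∃ n ∈ nsumD (box A (2 * Q)) j, red Q n - j • red Q a0 = x := by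
  induction j generalizing x with
  | zero =>
    rw [sm_zero, Finset.mem_singleton]
    constructor
    · rintro rfl
      exact ⟨0, nsumD_zero.2 rfl, by simp [red_zero]⟩
    · rintro ⟨n, hn, rfl⟩
      rw [nsumD_zero.1 hn]
      simp [red_zero]
  | succ j ih =>
    rw [sm_succ, Finset.mem_add]
    constructor
    · rintro ⟨y, hy, z, hz, rfl⟩
      obtain ⟨n, hn, rfl⟩ := ih.1 hy
      obtain ⟨a, ha, rfl⟩ := mem_BB.1 hz
      refine ⟨n + a, nsumD_succ.2 ⟨n, hn, a, ha, rfl⟩, ?_⟩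
      rw [red_add, succ_nsmul]
      abel
    · rintro ⟨n, hn, rfl⟩
      obtain ⟨w, hw, a, ha, rfl⟩ := nsumD_succ.1 hn
      refine ⟨_, ih.2 ⟨w, hw, rfl⟩, _, mem_BB.2 ⟨a, ha, rfl⟩, ?_⟩
      rw [red_add, succ_nsmul]
      abel

theorem sm_closure {G : Type} [AddCommGroup G] [Fintype G] [DecidableEq G] {B : Finset G} {j : ℕ} {x : G}
    (hx : x ∈ sm j B) : x ∈ AddSubgroup.closure (B : Set G) := by
  induction j generalizing x with
  | zero =>
    rw [sm_zero, Finset.mem_singleton] at hx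
    rw [hx]
    exact zero_mem _
  | succ j ih =>
    rw [sm_succ, Finset.mem_add] at hx
    obtain ⟨y, hy, z, hz, rfl⟩ := hx
    exact add_mem (ih hy) (AddSubgroup.subset_closure hz)

/-- the theorem on finite groups of the starting library, with its explicit constant -/
theorem finite_explicit (G : Type) [AddCommGroup G] [Fintype G] [DecidableEq G]
    (B : Finset G) (h0 : (0 : G) ∈ B) (hgen : AddSubgroup.closure (B : Set G) = ⊤) (a : G) (r : ℕ)
    (hr : 1 ≤ r) (hcov : ∀ x : G, ∃ j ≤ r, ∃ s ∈ sm j B, x = j • a + s) (k : ℕ)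
    (hk : r ^ 2 + 4680011 * r ≤ 3 * k) : sm k B = univ := by
  by_contra hne
  obtain ⟨G', i1, i2, i3, π, hπ, hne', hst', -⟩ := exists_aperiodic B k hne
  refine P_core (B.image π) ?_ ?_ (π a) r hr (P_cov_image π hπ B a r hcov) k hst' hk hne'
  · rw [mem_image]
    exact ⟨0, h0, map_zero π⟩
  · rw [coe_image]
    have h1 := AddMonoidHom.map_closure π (B : Set G)
    rw [← h1, hgen]
    rw [← AddMonoidHom.range_eq_map]
    exact AddMonoidHom.range_eq_top.mpr hπ

theorem gen_of_single {A : Set (Fin d → ℕ)} {a0 : Fin d → ℕ} {Q : ℕ} [NeZero Q]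
    (hsingle : ∀ i : Fin d, (Pi.single i 1 : Fin d → ZMod Q) ∈
      AddSubgroup.closure ((BB A a0 Q : Finset (Fin d → ZMod Q)) : Set (Fin d → ZMod Q))) :
    AddSubgroup.closure ((BB A a0 Q : Finset (Fin d → ZMod Q)) :
      Set (Fin d → ZMod Q)) = ⊤ := by
  rw [eq_top_iff]
  intro x _
  rw [← Finset.univ_sum_single x]
  refine AddSubgroup.sum_mem _ fun i _ => ?_
  have e5 : (Pi.single i (x i) : Fin d → ZMod Q) = (x i).val • Pi.single i 1 := by
    ext l
    rw [Pi.smul_apply, Pi.single_apply, Pi.single_apply]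
    split_ifs
    · rw [nsmul_eq_mul, mul_one, ZMod.natCast_zmod_val]
    · simp
  rw [e5]
  exact AddSubgroup.nsmul_mem _ (hsingle i) _

/-- the differences of the elements of `A` -/
def Dif (A : Set (Fin d → ℕ)) : Set (Fin d → ℤ) :=
  {g | ∃ x ∈ A, ∃ y ∈ A, ∀ i, g i = (x i : ℤ) - (y i : ℤ)}

theorem closure_red {A : Set (Fin d → ℕ)} (a0 : Fin d → ℕ) {g : Fin d → ℤ}
    (hg : g ∈ AddSubgroup.closure (Dif A)) :
    ∃ M : ℕ, ∀ Q : ℕ, ∀ _ : NeZero Q, M ≤ Q → (fun i => ((g i : ℤ) : ZMod Q)) ∈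
      AddSubgroup.closure ((BB A a0 Q : Finset (Fin d → ZMod Q)) : Set (Fin d → ZMod Q)) := by
  induction hg using AddSubgroup.closure_induction with
  | mem g hg =>
    obtain ⟨x, hx, y, hy, h⟩ := hg
    refine ⟨(∑ i, x i) + ∑ i, y i, fun Q hQ hM => ?_⟩
    have hQ0 : 0 < Q := Nat.pos_of_ne_zero hQ.out
    have hxi : ∀ i, x i ≤ ∑ l, x l := fun i =>
      Finset.single_le_sum (f := x) (fun _ _ => Nat.zero_le _) (Finset.mem_univ i)
    have hyi : ∀ i, y i ≤ ∑ l, y l := fun i =>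
      Finset.single_le_sum (f := y) (fun _ _ => Nat.zero_le _) (Finset.mem_univ i)
    have m1 : red Q x - red Q a0 ∈ AddSubgroup.closure
        ((BB A a0 Q : Finset (Fin d → ZMod Q)) : Set (Fin d → ZMod Q)) :=
      AddSubgroup.subset_closure (mem_BB.2 ⟨x, ⟨hx, fun i => by have := hxi i; omega⟩, rfl⟩)
    have m2 : red Q y - red Q a0 ∈ AddSubgroup.closure
        ((BB A a0 Q : Finset (Fin d → ZMod Q)) : Set (Fin d → ZMod Q)) :=
      AddSubgroup.subset_closure (mem_BB.2 ⟨y, ⟨hy, fun i => by have := hyi i; omega⟩, rfl⟩)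
    have m3 := sub_mem m1 m2
    have e : red Q x - red Q a0 - (red Q y - red Q a0) = fun i => ((g i : ℤ) : ZMod Q) := by
      rw [sub_sub_sub_cancel_right]
      ext i
      rw [h i]
      simp [red]
    rw [e] at m3
    exact m3
  | zero =>
    refine ⟨0, fun Q _ _ => ?_⟩
    have e : (fun i : Fin d => (((0 : Fin d → ℤ) i : ℤ) : ZMod Q)) = 0 := by
      ext i
      simp
    rw [e]
    exact zero_mem _
  | add x y _ _ hx hy =>
    obtain ⟨M, hM⟩ := hx
    obtain ⟨M', hM'⟩ := hy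
    refine ⟨M + M', fun Q hQ hQM => ?_⟩
    have m3 := add_mem (hM Q hQ (by omega)) (hM' Q hQ (by omega))
    have e : (fun i : Fin d => (((x + y) i : ℤ) : ZMod Q)) =
        (fun i => ((x i : ℤ) : ZMod Q)) + fun i => ((y i : ℤ) : ZMod Q) := by
      ext i
      simp
    rw [e]
    exact m3
  | neg x _ hx =>
    obtain ⟨M, hM⟩ := hx
    refine ⟨M, fun Q hQ hQM => ?_⟩
    have m3 := neg_mem (hM Q hQ hQM)
    have e : (fun i : Fin d => (((-x) i : ℤ) : ZMod Q)) = -fun i => ((x i : ℤ) : ZMod Q) := by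
      ext i
      simp
    rw [e]
    exact m3

theorem exists_gen {A : Set (Fin d → ℕ)} (a0 : Fin d → ℕ)
    (hA : AddSubgroup.closure (Dif A) = ⊤) :
    ∃ M : ℕ, ∀ Q : ℕ, ∀ _ : NeZero Q, M ≤ Q →
      AddSubgroup.closure ((BB A a0 Q : Finset (Fin d → ZMod Q)) : Set (Fin d → ZMod Q)) = ⊤ := by
  have h : ∀ i : Fin d, ∃ M : ℕ, ∀ Q : ℕ, ∀ _ : NeZero Q, M ≤ Q →
      (fun l => (((Pi.single i 1 : Fin d → ℤ) l : ℤ) : ZMod Q)) ∈
      AddSubgroup.closure ((BB A a0 Q : Finset (Fin d → ZMod Q)) : Set (Fin d → ZMod Q)) :=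
    fun i => closure_red a0 (by rw [hA]; exact AddSubgroup.mem_top _)
  choose M hM using h
  refine ⟨∑ i, M i, fun Q hQ hQM => gen_of_single fun i => ?_⟩
  have h1 := hM i Q hQ ((Finset.single_le_sum (f := M) (fun _ _ => Nat.zero_le _)
    (Finset.mem_univ i)).trans hQM)
  have e : (fun l => (((Pi.single i 1 : Fin d → ℤ) l : ℤ) : ZMod Q)) =
      (Pi.single i 1 : Fin d → ZMod Q) := by
    ext l
    rw [Pi.single_apply, Pi.single_apply]
    split_ifs <;> simp
  rw [e] at h1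
  exact h1

theorem step {A : Set (Fin d → ℕ)} {a0 : Fin d → ℕ} (ha0 : a0 ∈ A) {Q : ℕ} [NeZero Q]
    {r N0 t : ℕ} (hr : 1 ≤ r)
    (hcov : ∀ n : Fin d → ℕ, (∀ i, N0 ≤ n i) → ∃ j ≤ r, n ∈ nsumD A j)
    (hgen : AddSubgroup.closure ((BB A a0 Q : Finset (Fin d → ZMod Q)) :
      Set (Fin d → ZMod Q)) = ⊤)
    (hQ0 : ∀ i, a0 i < Q) (hQ1 : N0 < Q)
    (ht : r ^ 2 + 4680011 * r ≤ 3 * t) :
    ∃ c : Fin d → ℕ, (∀ i, c i ≤ 2 * t) ∧ (fun i => c i * Q) ∈ nsumD A t := by
  classical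
  have hQ : 0 < Q := by omega
  have hB0 : (0 : Fin d → ZMod Q) ∈ BB A a0 Q :=
    mem_BB.2 ⟨a0, ⟨ha0, fun i => by have := hQ0 i; omega⟩, by simp⟩
  have hall := finite_explicit (Fin d → ZMod Q) (BB A a0 Q) hB0 hgen (red Q a0) r hr (fun x => by
    set n : Fin d → ℕ := fun i => N0 + (x i - (N0 : ZMod Q)).val with hn
    obtain ⟨j, hj, hw⟩ := hcov n (fun i => Nat.le_add_right _ _)
    refine ⟨j, hj, _, mem_smB.2 ⟨n, nsumD_box hw (fun i => ?_), rfl⟩, ?_⟩
    · have : (x i - (N0 : ZMod Q)).val < Q := ZMod.val_lt _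
      simp only [hn]
      omega
    · have e6 : red Q n = x := by
        ext i
        simp only [red, hn, Nat.cast_add, ZMod.natCast_zmod_val]
        ring
      rw [e6]
      abel) t ht
  have h3 : -(t • red Q a0) ∈ sm t (BB A a0 Q) := by
    rw [hall]
    exact Finset.mem_univ _
  obtain ⟨u, hu, hu'⟩ := mem_smB.1 h3
  have h4 : red Q u = 0 := by
    have := hu'
    rw [sub_eq_iff_eq_add] at this
    rw [this]
    abel
  have h5 : ∀ i, Q ∣ u i := by
    intro i
    rw [← ZMod.natCast_eq_zero_iff]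
    exact congrFun h4 i
  choose c hc using h5
  refine ⟨c, fun i => ?_, ?_⟩
  · have h6 := nsumD_bound hu i
    rw [hc i] at h6
    have h7 : Q * c i ≤ Q * (2 * t) := by
      have : t * (2 * Q) = Q * (2 * t) := by ring
      omega
    exact Nat.le_of_mul_le_mul_left h7 hQ
  · have e : (fun i => c i * Q) = u := by
      ext i
      rw [hc i, mul_comm]
    rw [e]
    exact nsumD_of_box hu

/-- the differences of a set with an exact order generate `ℤ ^ d` -/
theorem closure_of_exact {A : Set (Fin d → ℕ)} {k : ℕ}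
    (hk : ∃ N : ℕ, ∀ n : Fin d → ℕ, (∀ i, N ≤ n i) → n ∈ nsumD A k) :
    AddSubgroup.closure (Dif A) = ⊤ := by
  classical
  obtain ⟨N1, hN1⟩ := hk
  have hsingle : ∀ i : Fin d, (Pi.single i 1 : Fin d → ℤ) ∈ AddSubgroup.closure (Dif A) := by
    intro i
    obtain ⟨v, hv, hvs⟩ := hN1 (fun _ => N1) (fun _ => le_rfl)
    obtain ⟨w, hw, hws⟩ := hN1 ((fun _ => N1) + Pi.single i 1)
      (fun l => by rw [Pi.add_apply]; exact Nat.le_add_right _ _)
    have e : (Pi.single i 1 : Fin d → ℤ) = ∑ l, fun t => ((w l t : ℤ) - (v l t : ℤ)) := by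
      ext t
      have h1 := congrFun hvs t
      have h2 := congrFun hws t
      rw [Finset.sum_apply] at h1 h2
      rw [Finset.sum_apply, Finset.sum_sub_distrib]
      have h1' : (∑ l, (v l t : ℤ)) = N1 := by exact_mod_cast h1
      have h2' : (∑ l, (w l t : ℤ)) = N1 + ((Pi.single i 1 : Fin d → ℕ) t : ℤ) := by
        have : ∑ l, w l t = N1 + (Pi.single i 1 : Fin d → ℕ) t := h2
        exact_mod_cast this
      rw [h1', h2', Pi.single_apply, Pi.single_apply]
      split_ifs <;> simp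
    rw [e]
    refine AddSubgroup.sum_mem _ fun l _ => AddSubgroup.subset_closure ?_
    exact ⟨w l, hw l, v l, hv l, fun _ => rfl⟩
  rw [eq_top_iff]
  intro x _
  rw [← Finset.univ_sum_single x]
  refine AddSubgroup.sum_mem _ fun i _ => ?_
  have e5 : (Pi.single i (x i) : Fin d → ℤ) = (x i) • Pi.single i 1 := by
    ext l
    rw [Pi.smul_apply, Pi.single_apply, Pi.single_apply]
    split_ifs <;> simp
  rw [e5]
  exact AddSubgroup.zsmul_mem _ (hsingle i) _

theorem upper_main {A : Set (Fin d → ℕ)} {r : ℕ} (hr : 1 ≤ r) (hb : IsBasisD r A)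
    (hA : AddSubgroup.closure (Dif A) = ⊤) (hd : 1 ≤ d) {K : ℕ}
    (hK : r ^ 2 + 4680017 * r ≤ 3 * K) :
    ∃ N : ℕ, ∀ n : Fin d → ℕ, (∀ i, N ≤ n i) → n ∈ nsumD A K := by
  classical
  obtain ⟨N0, hN0⟩ := hb
  -- an element of `A`
  obtain ⟨a0, ha0⟩ : ∃ a0, a0 ∈ A := by
    obtain ⟨j, _, v, hv, hsum⟩ := hN0 (fun _ => N0 + 1) (fun _ => Nat.le_succ _)
    rcases Nat.eq_zero_or_pos j with rfl | hj
    · rw [Finset.univ_eq_empty, Finset.sum_empty] at hsum
      have := congrFun hsum ⟨0, hd⟩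
      simp at this
    · exact ⟨v ⟨0, hj⟩, hv _⟩
  obtain ⟨M, hM⟩ := exists_gen a0 hA
  have hK2 : r ^ 2 + 4680011 * r + 6 * r ≤ 3 * K := by
    have h3 : 4680017 * r = 4680011 * r + 6 * r := by ring
    omega
  set Q0 : ℕ := N0 + (∑ i, a0 i) + M + 2 with hQ0
  have hcov' : ∀ n : Fin d → ℕ, ∃ j : Fin (r + 1), (fun i => Q0 * n i + N0) ∈ nsumD A j := by
    intro n
    obtain ⟨j, hj, h⟩ := hN0 (fun i => Q0 * n i + N0) (fun i => Nat.le_add_left _ _)
    exact ⟨⟨j, by omega⟩, h⟩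
  choose col hcol using hcov'
  obtain ⟨a, ha, b, c, hc⟩ := Combinatorics.exists_mono_homothetic_copy
    (Fintype.piFinset fun _ : Fin d => range (2 * K + 1)) col
  set Q : ℕ := Q0 * a with hQdef
  have hQQ : Q0 ≤ Q := Nat.le_mul_of_pos_right _ ha
  have hNZ : NeZero Q := ⟨by omega⟩
  set z : Fin d → ℕ := fun i => Q0 * b i + N0 with hz
  have hzs : ∀ s : Fin d → ℕ, (∀ i, s i ≤ 2 * K) → (fun i => z i + s i * Q) ∈ nsumD A c := by
    intro s hs
    have h1 := hcol (a • s + b)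
    rw [hc s (by
      rw [Fintype.mem_piFinset]
      intro i
      rw [Finset.mem_range]
      have := hs i
      omega)] at h1
    have e : (fun i => Q0 * (a • s + b) i + N0) = fun i => z i + s i * Q := by
      ext i
      simp only [hz, hQdef, Pi.add_apply, Pi.smul_apply, smul_eq_mul]
      ring
    rw [e] at h1
    exact h1
  have hai : ∀ i, a0 i ≤ ∑ l, a0 l := fun i =>
    Finset.single_le_sum (f := a0) (fun _ _ => Nat.zero_le _) (Finset.mem_univ i)
  have hzi : ∀ i, z i ≤ ∑ l, z l := fun i =>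
    Finset.single_le_sum (f := z) (fun _ _ => Nat.zero_le _) (Finset.mem_univ i)
  refine ⟨(∑ l, z l) + 2 * K * Q + N0, fun n hn => ?_⟩
  · obtain ⟨j, hj, hw⟩ := hN0 (fun i => n i - (z i + 2 * K * Q)) (fun i => by
      have h1 := hn i
      have h2 := hzi i
      omega)
    have hcr : (c : ℕ) ≤ r := by
      have := c.2
      omega
    obtain ⟨w, hw1, hw2⟩ := step (Q := Q) (t := K - c - j) ha0 hr hN0 (hM Q hNZ (by omega))
      (fun i => by
        have := hai i
        omega) (by omega) (by omega)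
    have e3 := nsumD_add (nsumD_add (hzs (fun i => 2 * K - w i) (fun i => by omega)) hw2) hw
    have e4 : (fun i => z i + (2 * K - w i) * Q) + (fun i => w i * Q) +
        (fun i => n i - (z i + 2 * K * Q)) = n := by
      ext i
      have h1 := hn i
      have h2 := hzi i
      have h3 := hw1 i
      simp only [Pi.add_apply]
      have e5 : (2 * K - w i) * Q + w i * Q = 2 * K * Q := by
        rw [← Nat.add_mul]
        congr 1
        omega
      omega
    rw [e4] at e3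
    have e6 : (c : ℕ) + (K - c - j) + j = K := by omega
    rw [e6] at e3
    exact e3

theorem exact_le {A : Set (Fin d → ℕ)} {r k : ℕ} (hr : 1 ≤ r) (hd : 1 ≤ d) (hb : IsBasisD r A)
    (hk : HasExactOrderD A k) : 3 * k ≤ r ^ 2 + 4680019 * r := by
  have h2 := hk.2 (upper_main hr hb (closure_of_exact hk.1) hd
    (K := (r ^ 2 + 4680017 * r + 2) / 3) (by omega))
  omega

theorem exists_exact {A : Set (Fin d → ℕ)} {r : ℕ} (hr : 1 ≤ r) (hd : 1 ≤ d)
    (hb : IsBasisD r A) (hA : AddSubgroup.closure (Dif A) = ⊤) : ∃ k, HasExactOrderD A k := by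
  classical
  have h2 := upper_main hr hb hA hd (K := (r ^ 2 + 4680017 * r + 2) / 3) (by omega)
  exact ⟨_, Nat.find_spec (p := fun k => ∃ N : ℕ, ∀ n : Fin d → ℕ, (∀ i, N ≤ n i) →
    n ∈ nsumD A k) ⟨_, h2⟩, fun l hl => Nat.find_min' _ hl⟩

/-! ### cylinders over one-dimensional bases -/

/-- the cylinder over a set of natural numbers -/
def cyl (i0 : Fin d) (A : Set ℕ) : Set (Fin d → ℕ) := {x | x i0 ∈ A}

theorem cyl_nsum (i0 : Fin d) (A : Set ℕ) (j : ℕ) (hj : 1 ≤ j) (n : Fin d → ℕ) :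
    n ∈ nsumD (cyl i0 A) j ↔ n i0 ∈ nsum A j := by
  constructor
  · rintro ⟨v, hv, rfl⟩
    exact ⟨fun l => v l i0, fun l => hv l, by rw [Finset.sum_apply]⟩
  · rintro ⟨v, hv, hs⟩
    obtain ⟨j, rfl⟩ : ∃ j', j = j' + 1 := ⟨j - 1, by omega⟩
    refine ⟨fun l => if l = 0 then Function.update n i0 (v 0) else Pi.single i0 (v l), ?_, ?_⟩
    · intro l
      by_cases hl : l = 0
      · subst hl
        simpa [cyl] using hv 0
      · simpa [cyl, hl] using hv l
    · ext i
      rw [Finset.sum_apply, Fin.sum_univ_succ]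
      simp only [if_true, Fin.succ_ne_zero, if_false]
      by_cases hi : i = i0
      · subst hi
        rw [← hs, Fin.sum_univ_succ]
        simp
      · rw [Function.update_of_ne hi]
        have : ∀ l : Fin j, (Pi.single i0 (v l.succ) : Fin d → ℕ) i = 0 := fun l =>
          Pi.single_eq_of_ne hi _
        simp [this]

theorem exactOrders_subset (hd : 1 ≤ d) (r : ℕ) : exactOrders r ⊆ exactOrdersD d r := by
  rintro k ⟨A, ⟨N, hN⟩, ⟨⟨N', hN'⟩, hleast⟩⟩
  set i0 : Fin d := ⟨0, hd⟩ with hi0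
  have hk1 : 1 ≤ k := by
    by_contra hk
    have hk0 : k = 0 := by omega
    subst hk0
    obtain ⟨v, _, hv⟩ := hN' (N' + 1) (Nat.le_succ _)
    simp at hv
  refine ⟨cyl i0 A, ⟨N + 1, fun n hn => ?_⟩, ⟨N', fun n hn => ?_⟩, ?_⟩
  · obtain ⟨j, hj, h⟩ := hN (n i0) (by have := hn i0; omega)
    have hj1 : 1 ≤ j := by
      by_contra hj1
      have hj0 : j = 0 := by omega
      subst hj0
      obtain ⟨v, _, hv⟩ := h
      have := hn i0
      simp at hv
      omega
    exact ⟨j, hj, (cyl_nsum i0 A j hj1 n).2 h⟩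
  · exact (cyl_nsum i0 A k hk1 n).2 (hN' _ (hn i0))
  · rintro l ⟨M, hM⟩
    have hl1 : 1 ≤ l := by
      by_contra hl
      have hl0 : l = 0 := by omega
      subst hl0
      have h1 := hM (fun _ => M + 1) (fun _ => Nat.le_succ _)
      rw [nsumD_zero] at h1
      have := congrFun h1 i0
      simp at this
    refine hleast ⟨M, fun n hn => ?_⟩
    exact (cyl_nsum i0 A l hl1 (fun _ => n)).1 (hM (fun _ => n) (fun _ => hn))

/-! ### the version with finitely many exceptions -/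

/-- all but finitely many points of `ℕ ^ d` are sums of exactly `j` elements of `A` for some
`j ≤ r` -/
def IsBasisC (r : ℕ) (A : Set (Fin d → ℕ)) : Prop :=
  {n : Fin d → ℕ | ¬ ∃ j ≤ r, n ∈ nsumD A j}.Finite

/-- `k` is the least integer such that all but finitely many points of `ℕ ^ d` are sums of exactly
`k` elements of `A` -/
def HasExactOrderC (A : Set (Fin d → ℕ)) (k : ℕ) : Prop :=
  IsLeast {k : ℕ | {n : Fin d → ℕ | ¬ n ∈ nsumD A k}.Finite} k

/-- the exact orders of the bases of order `r` of `ℕ ^ d`, with finitely many exceptions -/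
def exactOrdersC (d r : ℕ) : Set ℕ :=
  {k | ∃ A : Set (Fin d → ℕ), IsBasisC r A ∧ HasExactOrderC A k}

/-- the analogue of `h(r)` for `ℕ ^ d`, with finitely many exceptions -/
noncomputable def hC (d r : ℕ) : ℕ := sSup (exactOrdersC d r)

theorem cofinite_iff (p : (Fin d → ℕ) → Prop) :
    {n : Fin d → ℕ | ¬ p n}.Finite ↔ ∃ N : ℕ, ∀ n : Fin d → ℕ, (∃ i, N ≤ n i) → p n := by
  constructor
  · intro h
    refine ⟨(∑ n ∈ h.toFinset, ∑ i, n i) + 1, fun n ⟨i, hi⟩ => ?_⟩
    by_contra hn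
    have h1 : ∑ i, n i ≤ ∑ n ∈ h.toFinset, ∑ i, n i :=
      Finset.single_le_sum (f := fun n : Fin d → ℕ => ∑ i, n i) (fun _ _ => Nat.zero_le _)
        ((Set.Finite.mem_toFinset h).2 hn)
    have h2 : n i ≤ ∑ i, n i :=
      Finset.single_le_sum (f := n) (fun _ _ => Nat.zero_le _) (Finset.mem_univ i)
    omega
  · rintro ⟨N, hN⟩
    refine (Set.finite_Icc (0 : Fin d → ℕ) (fun _ => N)).subset fun n hn => ?_
    refine ⟨fun i => Nat.zero_le _, fun i => ?_⟩
    by_contra hi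
    exact hn (hN n ⟨i, by
      simp only [not_le] at hi
      omega⟩)

/-- the points of `A` on the axis `i`, as a set in dimension one -/
def axis (i : Fin d) (A : Set (Fin d → ℕ)) : Set (Fin 1 → ℕ) := {x | Pi.single i (x 0) ∈ A}

theorem axis_nsum (i : Fin d) (A : Set (Fin d → ℕ)) (j : ℕ) (x : Fin 1 → ℕ) :
    x ∈ nsumD (axis i A) j ↔ (Pi.single i (x 0) : Fin d → ℕ) ∈ nsumD A j := by
  constructor
  · rintro ⟨v, hv, rfl⟩
    refine ⟨fun l => Pi.single i (v l 0), fun l => hv l, ?_⟩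
    ext t
    rw [Finset.sum_apply, Finset.sum_apply]
    by_cases ht : t = i
    · subst ht
      simp
    · simp [ht]
  · rintro ⟨v, hv, hs⟩
    have hz : ∀ l t, t ≠ i → v l t = 0 := by
      intro l t ht
      have h1 := congrFun hs t
      rw [Finset.sum_apply, Pi.single_eq_of_ne ht] at h1
      exact (Finset.sum_eq_zero_iff.1 h1) l (Finset.mem_univ l)
    have he : ∀ l, (Pi.single i (v l i) : Fin d → ℕ) = v l := by
      intro l
      ext t
      by_cases ht : t = i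
      · subst ht
        simp
      · rw [Pi.single_eq_of_ne ht, hz l t ht]
    refine ⟨fun l _ => v l i, fun l => ?_, ?_⟩
    · change Pi.single i (v l i) ∈ A
      rw [he l]
      exact hv l
    · ext t
      have h1 := congrFun hs i
      rw [Finset.sum_apply, Pi.single_eq_same] at h1
      rw [Finset.sum_apply, h1]
      exact congrArg x (Subsingleton.elim _ _)

theorem upper_C {A : Set (Fin d → ℕ)} {r k : ℕ} (hr : 1 ≤ r) (hb : IsBasisC r A)
    (hk : HasExactOrderC A k) : 3 * k ≤ r ^ 2 + 4680022 * r := by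
  classical
  obtain ⟨N0, hN0⟩ := (cofinite_iff _).1 hb
  obtain ⟨N1, hN1⟩ := (cofinite_iff _).1 hk.1
  have hax : ∀ i : Fin d, ∀ t : ℕ, ∃ N : ℕ, r ^ 2 + 4680017 * r ≤ 3 * t → ∀ L ≥ N,
      (Pi.single i L : Fin d → ℕ) ∈ nsumD A t := by
    intro i t
    by_cases ht : r ^ 2 + 4680017 * r ≤ 3 * t
    swap
    · exact ⟨0, fun h => absurd h ht⟩
    have hb1 : IsBasisD r (axis i A) := by
      refine ⟨N0, fun n hn => ?_⟩
      obtain ⟨j, hj, h⟩ := hN0 (Pi.single i (n 0)) ⟨i, by rw [Pi.single_eq_same]; exact hn 0⟩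
      exact ⟨j, hj, (axis_nsum i A j n).2 h⟩
    have hcl : AddSubgroup.closure (Dif (axis i A)) = ⊤ := by
      refine closure_of_exact (k := k) ⟨N1, fun n hn => ?_⟩
      exact (axis_nsum i A k n).2 (hN1 _ ⟨i, by rw [Pi.single_eq_same]; exact hn 0⟩)
    obtain ⟨N, hN⟩ := upper_main hr hb1 hcl le_rfl ht
    refine ⟨N, fun _ L hL => ?_⟩
    exact (axis_nsum i A t (fun _ => L)).1 (hN _ (fun _ => hL))
  choose F hF using hax
  set K : ℕ := (r ^ 2 + 4680020 * r + 2) / 3 with hK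
  have hK3 : r ^ 2 + 4680017 * r + 3 * r ≤ 3 * K := by
    have h3 : 4680020 * r = 4680017 * r + 3 * r := by ring
    omega
  set L : ℕ := ∑ i, ∑ j ∈ range (r + 1), F i (K - j) with hL
  have hkK : k ≤ K := by
    refine hk.2 ((cofinite_iff _).2 ⟨L + N0, fun n ⟨i, hi⟩ => ?_⟩)
    obtain ⟨j, hj, hw⟩ := hN0 (fun t => n t - (Pi.single i L : Fin d → ℕ) t)
      ⟨i, by rw [Pi.single_eq_same]; omega⟩
    have hFL : F i (K - j) ≤ L := by
      have h1 : F i (K - j) ≤ ∑ j ∈ range (r + 1), F i (K - j) :=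
        Finset.single_le_sum (f := fun j => F i (K - j)) (fun _ _ => Nat.zero_le _)
          (Finset.mem_range.2 (by omega))
      exact h1.trans (Finset.single_le_sum (f := fun i => ∑ j ∈ range (r + 1), F i (K - j))
        (fun _ _ => Nat.zero_le _) (Finset.mem_univ i))
    have h1 := nsumD_add (hF i (K - j) (by omega) L hFL) hw
    have e : (Pi.single i L : Fin d → ℕ) + (fun t => n t - (Pi.single i L : Fin d → ℕ) t) = n := by
      ext t
      rw [Pi.add_apply]
      by_cases ht : t = i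
      · subst ht
        rw [Pi.single_eq_same]
        omega
      · rw [Pi.single_eq_of_ne ht]
        omega
    rw [e] at h1
    have e6 : K - j + j = K := by omega
    rw [e6] at h1
    exact h1
  have h3 : 4680022 * r = 4680020 * r + 2 * r := by ring
  rw [h3]
  omega

theorem exists_part (n : Fin d → ℕ) (b : ℕ) (hb : b ≤ ∑ i, n i) :
    ∃ v : Fin d → ℕ, (∀ i, v i ≤ n i) ∧ ∑ i, v i = b := by
  induction b with
  | zero => exact ⟨0, fun i => Nat.zero_le _, by simp⟩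
  | succ b ih =>
    obtain ⟨v, hv, hs⟩ := ih (by omega)
    obtain ⟨i, hi⟩ : ∃ i, v i < n i := by
      by_contra h
      simp only [not_exists, not_lt] at h
      have : ∑ i, n i ≤ ∑ i, v i := Finset.sum_le_sum fun i _ => h i
      omega
    refine ⟨v + Pi.single i 1, fun t => ?_, ?_⟩
    · rw [Pi.add_apply, Pi.single_apply]
      split_ifs with h
      · subst h
        exact hi
      · exact hv t
    · simp only [Pi.add_apply, Finset.sum_add_distrib, hs]
      simp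

theorem sigma_nsum (B : Set ℕ) (j : ℕ) (n : Fin d → ℕ) :
    n ∈ nsumD {x : Fin d → ℕ | ∑ i, x i ∈ B} j ↔ ∑ i, n i ∈ nsum B j := by
  constructor
  · rintro ⟨v, hv, rfl⟩
    refine ⟨fun l => ∑ i, v l i, fun l => hv l, ?_⟩
    simp only [Finset.sum_apply]
    exact Finset.sum_comm
  · induction j generalizing n with
    | zero =>
      rintro ⟨v, _, hs⟩
      rw [Finset.univ_eq_empty, Finset.sum_empty] at hs
      rw [nsumD_zero]
      ext i
      exact (Finset.sum_eq_zero_iff.1 hs.symm) i (Finset.mem_univ i)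
    | succ j ih =>
      rintro ⟨v, hv, hs⟩
      rw [Fin.sum_univ_castSucc] at hs
      obtain ⟨w, hw, hws⟩ := exists_part n (v (Fin.last j)) (by omega)
      have hsub : ∑ i, (n i - w i) = ∑ l : Fin j, v l.castSucc := by
        have h1 : ∑ i, (n i - w i) + ∑ i, w i = ∑ i, n i := by
          rw [← Finset.sum_add_distrib]
          exact Finset.sum_congr rfl fun i _ => Nat.sub_add_cancel (hw i)
        omega
      refine nsumD_succ.2 ⟨fun i => n i - w i, ih _ ⟨fun l => v l.castSucc, fun l => hv _,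
        hsub.symm⟩, w, ?_, ?_⟩
      · change ∑ i, w i ∈ B
        rw [hws]
        exact hv _
      · ext i
        rw [Pi.add_apply]
        exact Nat.sub_add_cancel (hw i)

theorem exactOrders_subset_C (hd : 1 ≤ d) (r : ℕ) : exactOrders r ⊆ exactOrdersC d r := by
  rintro k ⟨B, ⟨N, hN⟩, ⟨⟨N', hN'⟩, hleast⟩⟩
  have hle : ∀ (n : Fin d → ℕ) i, n i ≤ ∑ i, n i := fun n i =>
    Finset.single_le_sum (f := n) (fun _ _ => Nat.zero_le _) (Finset.mem_univ i)
  refine ⟨{x : Fin d → ℕ | ∑ i, x i ∈ B}, (cofinite_iff _).2 ⟨N, fun n ⟨i, hi⟩ => ?_⟩,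
    (cofinite_iff _).2 ⟨N', fun n ⟨i, hi⟩ => ?_⟩, ?_⟩
  · obtain ⟨j, hj, h⟩ := hN _ (hi.trans (hle n i))
    exact ⟨j, hj, (sigma_nsum B j n).2 h⟩
  · exact (sigma_nsum B k n).2 (hN' _ (hi.trans (hle n i)))
  · intro l hl
    obtain ⟨M, hM⟩ := (cofinite_iff _).1 hl
    refine hleast ⟨M, fun n hn => ?_⟩
    have h1 := (sigma_nsum B l (Pi.single (⟨0, hd⟩ : Fin d) n)).1
      (hM _ ⟨⟨0, hd⟩, by rw [Pi.single_eq_same]; exact hn⟩)
    rwa [Finset.sum_pi_single' , if_pos (Finset.mem_univ _)] at h1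

end Pool.Agent.Y875.EO
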